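import Mathlib
import Pool.Agent.Q185.SF.Iso

set_option autoImplicit false

namespace Pool.Agent.Results.MP_add580_gt.NonIsomorphicGroups

/-- `Γ` acts freely on the unit sphere of `ℝ^N`: no element other than the identity fixes a unit
vector. -/
def ActsFreely {N : ℕ} (Γ : Subgroup (Matrix.orthogonalGroup (Fin N) ℝ)) : Prop :=
  ∀ g ∈ Γ, g ≠ 1 → ∀ v : Fin N → ℝ, v ⬝ᵥ v = 1 → g.1.mulVec v ≠ v

/-- The dimension of the space of `Γ`-invariant harmonic homogeneous polynomials of degree `k` on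
`ℝ^N`, i.e. the multiplicity of the eigenvalue `k (k + N - 2)` of the Laplacian on the quotient of
the unit sphere by `Γ`. -/
noncomputable def multiplicity {N : ℕ} (Γ : Subgroup (Matrix.orthogonalGroup (Fin N) ℝ))
    (k : ℕ) : ℕ :=
  Module.finrank ℝ ↥(MvPolynomial.homogeneousSubmodule (Fin N) ℝ k ⊓
    LinearMap.ker (∑ i : Fin N,
      (MvPolynomial.pderiv i).toLinearMap ∘ₗ (MvPolynomial.pderiv i).toLinearMap) ⊓
    ⨅ g ∈ Γ, LinearMap.ker ((MvPolynomial.aeval (fun i : Fin N =>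
      ∑ j : Fin N, MvPolynomial.C (g.1 i j) * MvPolynomial.X j)).toLinearMap
        - LinearMap.id))

/-- The two quotients of the sphere have the same Laplace spectrum with multiplicities. -/
def Isospectral {N : ℕ} (Γ₁ Γ₂ : Subgroup (Matrix.orthogonalGroup (Fin N) ℝ)) : Prop :=
  ∀ k : ℕ, multiplicity Γ₁ k = multiplicity Γ₂ k

/-- There are two isospectral spherical space forms `S^n / Γ₁` and `S^n / Γ₂` of dimension `n`
such that `Γ₁` and `Γ₂` are not isomorphic as abstract groups. -/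
def HasPair (n : ℕ) : Prop :=
  ∃ Γ₁ Γ₂ : Subgroup (Matrix.orthogonalGroup (Fin (n + 1)) ℝ),
    Finite Γ₁ ∧ Finite Γ₂ ∧ ActsFreely Γ₁ ∧ ActsFreely Γ₂ ∧ Isospectral Γ₁ Γ₂ ∧
      ¬ Nonempty (Γ₁ ≃* Γ₂)

open Pool.Agent.Helper477 Pool.Agent.Helper477.Sph Pool.Agent.Helper477.HarmInv

theorem free_iff {N : ℕ} (Γ : Subgroup (Matrix.orthogonalGroup (Fin N) ℝ)) (h : FreeOn Γ) :
    ActsFreely Γ := by
  intro g hg hg1 v hv hgv
  rw [h g hg hg1 v hgv] at hv
  simp at hv

theorem iso_of_hilb {N : ℕ} (hN : 0 < N) (Γ₁ Γ₂ : Subgroup (Matrix.orthogonalGroup (Fin N) ℝ))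
    (h : hilb Γ₁ = hilb Γ₂) : Isospectral Γ₁ Γ₂ := by
  intro k
  refine isospectral_of_invariants hN Γ₁ Γ₂ (fun k => ?_) k
  have h1 := congrArg (PowerSeries.coeff k) h
  unfold hilb at h1
  rw [PowerSeries.coeff_mk, PowerSeries.coeff_mk] at h1
  exact_mod_cast h1

/-- In dimension `17`, and more generally in every dimension `18 t - 1` with `t` odd (these
dimensions are congruent to `1` modulo `4`), there are isospectral spherical space forms whose
fundamental groups are not isomorphic. -/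
theorem result : 17 % 4 = 1 ∧ HasPair 17 ∧
    ∀ t : ℕ, Odd t → (18 * t - 1) % 4 = 1 ∧ HasPair (18 * t - 1) := by
  have key : ∀ t : ℕ, Odd t → (18 * t - 1) % 4 = 1 ∧ HasPair (18 * t - 1) := by
    intro t ht
    have ht0 : 0 < t := ht.pos
    refine ⟨?_, ?_⟩
    · obtain ⟨m, rfl⟩ := ht
      omega
    · have hN : 18 * t - 1 + 1 = 2 * (9 * t) := by omega
      unfold HasPair
      rw [hN]
      exact ⟨Q185.SF.Gam t (-1, -1), Q185.SF.Gam t (-1, 1), Q185.SF.finite_Gam _,
        Q185.SF.finite_Gam _, free_iff _ (Q185.SF.free_Gam _ (Or.inl rfl)),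
        free_iff _ (Q185.SF.free_Gam _ (Or.inr rfl)),
        iso_of_hilb (by omega) _ _ (Q185.SF.hilb_eq ht0), Q185.SF.not_iso ht0⟩
  exact ⟨rfl, (key 1 odd_one).2, key⟩

end Pool.Agent.Results.MP_add580_gt.NonIsomorphicGroups
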